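import Mathlib
import Pool.Agent.Helper5.Z2S.Interface

/-!
# Lifting maps to the circle and to the 2-sphere: basic lemmas

`eI t = e^{it}`; a map `f : W → S¹` *lifts* if `f = eI ∘ θ`; a map `f : W → S³` with `f² = -1`
*lifts* if `f = g i g⁻¹`.
-/

open Module Filter Topology Set Metric
open scoped Quaternion unitInterval

set_option linter.unusedSectionVars false
set_option linter.unusedVariables false
set_option linter.style.haveILetI false

namespace Pool.Agent.Helper90.Lift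

open Pool.Agent.Helper90.Deg Pool.Agent.Helper5.Z2S

/-! ### the exponential -/

/-- `t ↦ e^{it}` -/
noncomputable def eI : C(ℝ, S1) :=
  ⟨fun t => ⟨Complex.exp (t * Complex.I), by
    rw [mem_sphere_zero_iff_norm, Complex.norm_exp_ofReal_mul_I]⟩, by fun_prop⟩

theorem eI_coe (t : ℝ) : ((eI t : S1) : ℂ) = Complex.exp (t * Complex.I) := rfl

theorem eI_zero : eI 0 = 1 := Subtype.ext (by simp [eI_coe])

theorem eI_add (s t : ℝ) : eI (s + t) = eI s * eI t := by
  apply Subtype.ext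
  rw [Metric.unitSphere.coe_mul, eI_coe, eI_coe, eI_coe, ← Complex.exp_add]
  push_cast
  rw [add_mul]

theorem eI_neg (t : ℝ) : eI (-t) = (eI t)⁻¹ := by
  rw [eq_inv_iff_mul_eq_one, ← eI_add, neg_add_cancel, eI_zero]

theorem eI_sub (s t : ℝ) : eI (s - t) = eI s * (eI t)⁻¹ := by
  rw [sub_eq_add_neg, eI_add, eI_neg]

theorem eI_eq_one_iff (t : ℝ) : eI t = 1 ↔ ∃ n : ℤ, t = n * (2 * Real.pi) := by
  constructor
  · intro h
    have h1 : Complex.exp (t * Complex.I) = 1 := congrArg Subtype.val h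
    obtain ⟨n, hn⟩ := Complex.exp_eq_one_iff.mp h1
    refine ⟨n, ?_⟩
    have h2 := congrArg Complex.im hn
    simpa using h2
  · rintro ⟨n, rfl⟩
    apply Subtype.ext
    show Complex.exp ((((n : ℝ) * (2 * Real.pi) : ℝ) : ℂ) * Complex.I) = 1
    rw [Complex.exp_eq_one_iff]
    exact ⟨n, by push_cast; ring⟩

theorem eI_two_pi : eI (2 * Real.pi) = 1 := (eI_eq_one_iff _).mpr ⟨1, by norm_num⟩

theorem eI_pi : eI Real.pi = -1 := by
  apply Subtype.ext
  show Complex.exp (Real.pi * Complex.I) = _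
  rw [Complex.exp_pi_mul_I]
  rfl

theorem eI_surj (z : S1) : ∃ t, eI t = z := by
  refine ⟨Complex.arg z, Subtype.ext ?_⟩
  rw [eI_coe]
  have h := Complex.norm_mul_exp_arg_mul_I (z : ℂ)
  rwa [mem_sphere_zero_iff_norm.mp z.2, Complex.ofReal_one, one_mul] at h

theorem eI_zpow (t : ℝ) (n : ℤ) : (eI t) ^ n = eI (n * t) := by
  apply Subtype.ext
  rw [coe_zpow_circle, eI_coe, eI_coe, ← Complex.exp_int_mul]
  push_cast
  ring_nf

/-! ### integer valued functions -/

theorem const_of_int {W : Type*} [TopologicalSpace W] {s : Set W} (hs : IsPreconnected s)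
    {φ : W → ℝ} (hφ : ContinuousOn φ s) (hint : ∀ x ∈ s, ∃ n : ℤ, φ x = n) {x y : W}
    (hx : x ∈ s) (hy : y ∈ s) : φ x = φ y := by
  have key : ∀ x ∈ s, ∀ y ∈ s, ¬ φ x < φ y := by
    intro x hx y hy hlt
    obtain ⟨n, hn⟩ := hint x hx
    obtain ⟨m, hm⟩ := hint y hy
    have hnm : n < m := by
      rw [hn, hm] at hlt
      exact_mod_cast hlt
    have h1 : (n : ℝ) + 1 ≤ m := by exact_mod_cast hnm
    have h2 : (φ x + 1 / 2) ∈ φ '' s := by
      have := hs.intermediate_value hx hy hφ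
      apply this
      rw [hn, hm]
      constructor <;> linarith
    obtain ⟨z, hz, hzz⟩ := h2
    obtain ⟨k, hk⟩ := hint z hz
    rw [hk, hn] at hzz
    have h3 : (2 * (k - n) : ℝ) = 1 := by linarith
    have h4 : (2 * (k - n) : ℤ) = 1 := by exact_mod_cast h3
    omega
  rcases lt_trichotomy (φ x) (φ y) with h | h | h
  · exact absurd h (key x hx y hy)
  · exact h
  · exact absurd h (key y hy x hx)

/-- a continuous function with `e^{iφ} = 1` on a preconnected set is constant there -/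
theorem const_of_eI {W : Type*} [TopologicalSpace W] {s : Set W} (hs : IsPreconnected s)
    {φ : W → ℝ} (hφ : ContinuousOn φ s) (hint : ∀ x ∈ s, eI (φ x) = 1) {x y : W}
    (hx : x ∈ s) (hy : y ∈ s) : φ x = φ y := by
  have h := const_of_int hs (φ := fun x => φ x / (2 * Real.pi)) (hφ.div_const _) (by
    intro x hx
    obtain ⟨n, hn⟩ := (eI_eq_one_iff _).mp (hint x hx)
    refine ⟨n, ?_⟩
    simp only [hn]
    field_simp) hx hy
  have hpi : (2 * Real.pi) ≠ 0 := by positivity
  field_simp at h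
  linarith

/-! ### induction along a homotopy -/

theorem homotopy_ind {Z : Type*} [TopologicalSpace Z] [CompactSpace Z] {E : Type*}
    [NormedAddCommGroup E] [NormedSpace ℝ E] (H : C(I × Z, sphere (0 : E) 1)) (P : I → Prop)
    (hP : ∀ s t, (∀ z, (H (t, z) : E) ≠ -(H (s, z) : E)) → P s → P t) (h0 : P 0) : P 1 := by
  have hloc : IsLocallyConstant P := by
    rw [IsLocallyConstant.iff_eventually_eq]
    intro s
    have hK := (isCompact_univ (X := Z)).eventually_forall_of_forall_eventually (x₀ := s)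
      (P := fun t z => (H (t, z) : E) ≠ -(H (s, z) : E)) (by
        intro z _
        have hopen : IsOpen {p : I × Z | (H p : E) ≠ -(H (s, p.2) : E)} :=
          isOpen_ne_fun (by fun_prop) (by fun_prop)
        refine hopen.mem_nhds ?_
        show (H (s, z) : E) ≠ -(H (s, z) : E)
        intro hcon
        have h1 : (2 : ℝ) • (H (s, z) : E) = 0 := by
          rw [two_smul]
          exact eq_neg_iff_add_eq_zero.mp hcon
        have h2 : ‖(H (s, z) : E)‖ = 1 := mem_sphere_zero_iff_norm.mp (H (s, z)).2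
        have h3 := congrArg norm h1
        rw [norm_smul, h2, norm_zero] at h3
        norm_num at h3)
    filter_upwards [hK] with t ht
    have ht' : ∀ z, (H (t, z) : E) ≠ -(H (s, z) : E) := fun z => ht z (mem_univ z)
    refine propext ⟨fun h => ?_, fun h => hP s t ht' h⟩
    refine hP t s (fun z hcon => ht' z ?_) h
    rw [hcon, neg_neg]
  have := hloc.apply_eq_of_preconnectedSpace 0 1
  rwa [← this]

/-! ### circle valued maps -/

/-- `f : W → S¹` lifts to `ℝ` -/
def LiftsT {W : Type*} [TopologicalSpace W] (f : C(W, S1)) : Prop :=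
  ∃ θ : C(W, ℝ), ∀ w, f w = eI (θ w)

/-- all maps `W → S¹` lift -/
def LiftT (W : Type*) [TopologicalSpace W] : Prop := ∀ f : C(W, S1), LiftsT f

theorem liftsT_of_ne_neg {W : Type*} [TopologicalSpace W] {f g : C(W, S1)}
    (h : ∀ w, (g w : ℂ) ≠ -(f w : ℂ)) (hf : LiftsT f) : LiftsT g := by
  obtain ⟨θ, hθ⟩ := hf
  have hn : ∀ z : S1, ‖(z : ℂ)‖ = 1 := fun z => mem_sphere_zero_iff_norm.mp z.2
  have hn0 : ∀ z : S1, (z : ℂ) ≠ 0 := fun z => by rw [← norm_ne_zero_iff, hn]; exact one_ne_zero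
  have hs : ∀ w, ((g w : ℂ) / (f w : ℂ)) ∈ Complex.slitPlane := by
    intro w
    rw [Complex.mem_slitPlane_iff]
    by_contra hcon
    push Not at hcon
    have h1 : ‖(g w : ℂ) / (f w : ℂ)‖ = 1 := by rw [norm_div, hn, hn, div_one]
    have h2 : ((g w : ℂ) / (f w : ℂ)).re ^ 2 = 1 := by
      have := Complex.sq_norm ((g w : ℂ) / (f w : ℂ))
      rw [h1, Complex.normSq_apply, hcon.2] at this
      nlinarith
    have h3 : ((g w : ℂ) / (f w : ℂ)).re = -1 := by nlinarith [hcon.1]
    have h4 : (g w : ℂ) / (f w : ℂ) = -1 := Complex.ext (by rw [h3]; simp) (by rw [hcon.2]; simp)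
    rw [div_eq_iff (hn0 _)] at h4
    exact h w (by rw [h4]; ring)
  refine ⟨⟨fun w => θ w + Complex.arg ((g w : ℂ) / (f w : ℂ)), ?_⟩, ?_⟩
  · refine θ.continuous.add ?_
    rw [continuous_iff_continuousAt]
    intro w
    have h1 : ContinuousAt (fun w => (g w : ℂ) / (f w : ℂ)) w :=
      ContinuousAt.div (by fun_prop) (by fun_prop) (hn0 _)
    exact ContinuousAt.comp (f := fun w => (g w : ℂ) / (f w : ℂ)) (g := Complex.arg)
      (Complex.continuousAt_arg (hs w)) h1
  · intro w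
    show g w = eI (θ w + Complex.arg ((g w : ℂ) / (f w : ℂ)))
    rw [eI_add, ← hθ]
    apply Subtype.ext
    rw [Metric.unitSphere.coe_mul, eI_coe]
    have h1 := Complex.norm_mul_exp_arg_mul_I ((g w : ℂ) / (f w : ℂ))
    rw [norm_div, hn, hn, div_one, Complex.ofReal_one, one_mul] at h1
    rw [h1, mul_div_cancel₀ _ (hn0 _)]

theorem LiftsT.of_homotopic {W : Type*} [TopologicalSpace W] [CompactSpace W] {f g : C(W, S1)}
    (h : f.Homotopic g) (hf : LiftsT f) : LiftsT g := by
  obtain ⟨H⟩ := h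
  have hs : ∀ t : I, Continuous fun w : W => H (t, w) := fun t => by fun_prop
  have := homotopy_ind H.toContinuousMap (fun t => LiftsT (⟨fun w => H (t, w), hs t⟩ : C(W, S1)))
    (fun s t hst hP => liftsT_of_ne_neg (fun w => hst w) hP) (by
      convert hf using 2
      simp)
  convert this using 2
  ext w
  simp

/-! ### maps to the two-sphere of unit quaternions of square `-1` -/

/-- `f = g i g⁻¹` -/
def LiftsS {W : Type*} [TopologicalSpace W] (f : C(W, S3)) : Prop :=
  ∃ g : C(W, S3), ∀ w, f w = g w * qi * (g w)⁻¹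

/-- all maps from `W` to the 2-sphere lift to the 3-sphere -/
def LiftS (W : Type*) [TopologicalSpace W] : Prop :=
  ∀ f : C(W, S3), (∀ w, f w * f w = -1) → LiftsS f

theorem qi_sq : qi * qi = -1 := by
  apply S3_ext
  rw [Metric.unitSphere.coe_mul, toC_mul, toC_qi]
  have : ((-1 : S3) : ℍ[ℝ]) = -1 := rfl
  rw [this, map_neg, toC_one]
  simp

/-- rotating a unit imaginary quaternion to a non-antipodal one -/
theorem liftsS_of_ne_neg {W : Type*} [TopologicalSpace W] {f g : C(W, S3)}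
    (hf2 : ∀ w, f w * f w = -1) (hg2 : ∀ w, g w * g w = -1)
    (h : ∀ w, (g w : ℍ[ℝ]) ≠ -(f w : ℍ[ℝ])) (hf : LiftsS f) : LiftsS g := by
  obtain ⟨u, hu⟩ := hf
  have ha : ∀ w, (f w : ℍ[ℝ]) * (f w : ℍ[ℝ]) = -1 := fun w => congrArg Subtype.val (hf2 w)
  have hb : ∀ w, (g w : ℍ[ℝ]) * (g w : ℍ[ℝ]) = -1 := fun w => congrArg Subtype.val (hg2 w)
  have hN : ∀ w, (1 : ℍ[ℝ]) - (g w : ℍ[ℝ]) * (f w : ℍ[ℝ]) ≠ 0 := by
    intro w hcon
    apply h w
    have h1 : (g w : ℍ[ℝ]) * (f w : ℍ[ℝ]) = 1 := (sub_eq_zero.mp hcon).symm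
    calc (g w : ℍ[ℝ]) = -((g w : ℍ[ℝ]) * ((f w : ℍ[ℝ]) * (f w : ℍ[ℝ]))) := by
          rw [ha, mul_neg, mul_one, neg_neg]
      _ = -((g w : ℍ[ℝ]) * (f w : ℍ[ℝ]) * (f w : ℍ[ℝ])) := by rw [mul_assoc]
      _ = -(f w : ℍ[ℝ]) := by rw [h1, one_mul]
  let N : C(W, S3) := ⟨fun w => proj _ (hN w), by
    refine Continuous.subtype_mk ?_ _
    refine Continuous.smul (Continuous.inv₀ (by fun_prop) fun w => norm_ne_zero_iff.mpr (hN w))
      (by fun_prop)⟩
  have hNc : ∀ w, (N w : ℍ[ℝ]) = ‖(1 : ℍ[ℝ]) - (g w : ℍ[ℝ]) * (f w : ℍ[ℝ])‖⁻¹ •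
      ((1 : ℍ[ℝ]) - (g w : ℍ[ℝ]) * (f w : ℍ[ℝ])) := fun w => rfl
  have key : ∀ w, N w * f w = g w * N w := by
    intro w
    apply Subtype.ext
    rw [Metric.unitSphere.coe_mul, Metric.unitSphere.coe_mul, hNc, smul_mul_assoc, mul_smul_comm]
    congr 1
    rw [sub_mul, mul_sub, one_mul, mul_one, mul_assoc, ha, ← mul_assoc, hb]
    noncomm_ring
  refine ⟨N * u, fun w => ?_⟩
  show g w = N w * u w * qi * (N w * u w)⁻¹
  have : g w = N w * f w * (N w)⁻¹ := by rw [key, mul_inv_cancel_right]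
  rw [this, hu]
  group

theorem liftsS_of_homotopic {W W' : Type*} [TopologicalSpace W] [TopologicalSpace W']
    [CompactSpace W] {f : C(W', S3)} (hf2 : ∀ w, f w * f w = -1) {u v : C(W, W')}
    (h : u.Homotopic v) (hf : LiftsS (f.comp u)) : LiftsS (f.comp v) := by
  obtain ⟨H⟩ := h
  have hs : ∀ t : I, Continuous fun w : W => f (H (t, w)) := fun t => by fun_prop
  have := homotopy_ind (f.comp H.toContinuousMap)
    (fun t => LiftsS (⟨fun w => f (H (t, w)), hs t⟩ : C(W, S3)))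
    (fun s t hst hP => liftsS_of_ne_neg (g := ⟨fun w => f (H (t, w)), hs t⟩)
      (f := ⟨fun w => f (H (s, w)), hs s⟩)
      (fun w => hf2 _) (fun w => hf2 _) (fun w => hst w) hP) (by
      have e : (⟨fun w => f (H (0, w)), hs 0⟩ : C(W, S3)) = f.comp u :=
        ContinuousMap.ext fun w => by
          show f (H (0, w)) = f (u w)
          rw [H.apply_zero]
      rw [e]
      exact hf)
  have e : (⟨fun w => f (H (1, w)), hs 1⟩ : C(W, S3)) = f.comp v :=
    ContinuousMap.ext fun w => by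
      show f (H (1, w)) = f (v w)
      rw [H.apply_one]
  rw [e] at this
  exact this

end Pool.Agent.Helper90.Lift
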