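import Mathlib
import Pool.Agent.Helper90.Lift.Basic

/-!
# Lifting on products with a sphere
-/

open Module Filter Topology Set Metric
open scoped Quaternion unitInterval

set_option linter.unusedSectionVars false
set_option linter.unusedVariables false
set_option linter.style.haveILetI false

namespace Pool.Agent.Helper90.Lift

open Pool.Agent.Helper90.Deg Pool.Agent.Helper5.Z2S

section

variable {E : Type*} [NormedAddCommGroup E] [InnerProductSpace ℝ E]

/-- fold the sphere onto the hemisphere around `e` -/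
noncomputable def fold (e : sphere (0 : E) 1) : C(sphere (0 : E) 1, sphere (0 : E) 1) :=
  ⟨fun x => ⟨(x : E) + (|inner ℝ (x : E) (e : E)| - inner ℝ (x : E) (e : E)) • (e : E), by
    rw [mem_sphere_zero_iff_norm]
    have h : ‖(x : E) + (|inner ℝ (x : E) (e : E)| - inner ℝ (x : E) (e : E)) • (e : E)‖ ^ 2 = 1 := by
      rw [norm_add_sq_real, norm_smul, inner_smul_right, norm_coe, norm_coe, mul_one,
        Real.norm_eq_abs, sq_abs]
      have := sq_abs (inner ℝ (x : E) (e : E))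
      nlinarith
    nlinarith [norm_nonneg ((x : E) + (|inner ℝ (x : E) (e : E)| - inner ℝ (x : E) (e : E)) • (e : E))]⟩,
    by fun_prop⟩

theorem fold_coe (e x : sphere (0 : E) 1) : (fold e x : E) =
    (x : E) + (|inner ℝ (x : E) (e : E)| - inner ℝ (x : E) (e : E)) • (e : E) := rfl

theorem inner_fold (e x : sphere (0 : E) 1) :
    inner ℝ (fold e x : E) (e : E) = |inner ℝ (x : E) (e : E)| := by
  rw [fold_coe, inner_add_left, inner_smul_left, real_inner_self_eq_norm_sq, norm_coe]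
  simp

theorem fold_of_nonneg {e x : sphere (0 : E) 1} (h : 0 ≤ inner ℝ (x : E) (e : E)) :
    fold e x = x := by
  apply Subtype.ext
  rw [fold_coe, abs_of_nonneg h, sub_self, zero_smul, add_zero]

theorem fold_neg_of_nonpos {e x : sphere (0 : E) 1} (h : inner ℝ (x : E) (e : E) ≤ 0) :
    fold (-e) x = x := by
  apply fold_of_nonneg
  show 0 ≤ inner ℝ (x : E) (-(e : E))
  rw [inner_neg_right]
  linarith

theorem const_homotopic_fold (e : sphere (0 : E) 1) :
    ContinuousMap.Homotopic (ContinuousMap.const _ e) (fold e) := by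
  apply homotopic_of_ne_neg
  intro y hcon
  have h1 : (e : E) = -(fold e y : E) := hcon
  have h2 := congrArg (fun v => inner ℝ v (e : E)) h1
  simp only [inner_neg_left] at h2
  rw [inner_fold, real_inner_self_eq_norm_sq, norm_coe] at h2
  have := abs_nonneg (inner ℝ (y : E) (e : E))
  linarith

/-- the equator as the unit sphere of the orthogonal complement -/
noncomputable def eqEmb (e : sphere (0 : E) 1) :
    C(sphere (0 : (ℝ ∙ (e : E))ᗮ) 1, sphere (0 : E) 1) :=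
  ⟨fun v => ⟨((v : (ℝ ∙ (e : E))ᗮ) : E), by
    rw [mem_sphere_zero_iff_norm]
    exact mem_sphere_zero_iff_norm.mp v.2⟩, by fun_prop⟩

theorem range_eqEmb (e : sphere (0 : E) 1) :
    range (eqEmb e) = {x : sphere (0 : E) 1 | inner ℝ (x : E) (e : E) = 0} := by
  ext x
  constructor
  · rintro ⟨v, rfl⟩
    exact Submodule.mem_orthogonal_singleton_iff_inner_left.mp (v : (ℝ ∙ (e : E))ᗮ).2
  · intro hx
    have hx' : (x : E) ∈ (ℝ ∙ (e : E))ᗮ := Submodule.mem_orthogonal_singleton_iff_inner_left.mpr hx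
    refine ⟨⟨⟨x, hx'⟩, ?_⟩, rfl⟩
    rw [mem_sphere_zero_iff_norm]
    exact norm_coe x

theorem eqEmb_injective (e : sphere (0 : E) 1) : Function.Injective (eqEmb e) := by
  intro v w h
  apply Subtype.ext
  apply Subtype.ext
  exact congrArg (fun x : sphere (0 : E) 1 => (x : E)) h

variable [FiniteDimensional ℝ E]

theorem finrank_orth (e : sphere (0 : E) 1) :
    finrank ℝ (ℝ ∙ (e : E))ᗮ + 1 = finrank ℝ E := by
  have h := Submodule.finrank_add_finrank_orthogonal (ℝ ∙ (e : E))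
  rw [finrank_span_singleton (by
    rw [← norm_ne_zero_iff, norm_coe]; exact one_ne_zero)] at h
  omega

theorem preconnected_equator (hE : 3 ≤ finrank ℝ E) (e : sphere (0 : E) 1) :
    IsPreconnected {x : sphere (0 : E) 1 | inner ℝ (x : E) (e : E) = 0} := by
  rw [← range_eqEmb]
  have h1 := finrank_orth e
  have hr : 1 < Module.rank ℝ (ℝ ∙ (e : E))ᗮ := by
    rw [← finrank_eq_rank ℝ]
    have : 1 < finrank ℝ (ℝ ∙ (e : E))ᗮ := by omega
    exact_mod_cast this
  have h2 := isPreconnected_sphere hr (0 : (ℝ ∙ (e : E))ᗮ) 1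
  haveI : PreconnectedSpace (sphere (0 : (ℝ ∙ (e : E))ᗮ) 1) := Subtype.preconnectedSpace h2
  exact isPreconnected_range (eqEmb e).continuous

theorem liftsT_fold {Z : Type*} [TopologicalSpace Z] [CompactSpace Z] (hZ : LiftT Z)
    (f : C(sphere (0 : E) 1 × Z, S1)) (e : sphere (0 : E) 1) :
    LiftsT (f.comp ((fold e).prodMap (ContinuousMap.id Z))) := by
  haveI : ProperSpace E := FiniteDimensional.proper_real E
  have h : ((ContinuousMap.const (sphere (0 : E) 1) e).prodMap (ContinuousMap.id Z)).Homotopic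
      ((fold e).prodMap (ContinuousMap.id Z)) :=
    (const_homotopic_fold e).prodMap (ContinuousMap.Homotopic.refl _)
  refine LiftsT.of_homotopic ((ContinuousMap.Homotopic.refl f).comp h) ?_
  obtain ⟨θ, hθ⟩ := hZ (f.comp ((ContinuousMap.const Z e).prodMk (ContinuousMap.id Z)))
  exact ⟨θ.comp ContinuousMap.snd, fun w => hθ w.2⟩

/-- **Lifting of circle valued maps on a product with a sphere of dimension at least two.** -/
theorem liftT_sphere_prod (hE : 3 ≤ finrank ℝ E) {Z : Type*} [TopologicalSpace Z]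
    [CompactSpace Z] [PreconnectedSpace Z] (hZ : LiftT Z) : LiftT (sphere (0 : E) 1 × Z) := by
  intro f
  have hnt : Nontrivial E := by
    rw [← finrank_pos_iff (R := ℝ)]; omega
  obtain ⟨v, hv⟩ := exists_norm_eq E zero_le_one
  let e : sphere (0 : E) 1 := ⟨v, mem_sphere_zero_iff_norm.mpr hv⟩
  obtain ⟨θ, hθ⟩ := liftsT_fold hZ f e
  obtain ⟨θ', hθ'⟩ := liftsT_fold hZ f (-e)
  have hθ1 : ∀ (x : sphere (0 : E) 1) (z : Z), 0 ≤ inner ℝ (x : E) (e : E) → f (x, z) = eI (θ (x, z)) := by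
    intro x z hx
    rw [← hθ]
    show f (x, z) = f (fold e x, z)
    rw [fold_of_nonneg hx]
  have hθ2 : ∀ (x : sphere (0 : E) 1) (z : Z), inner ℝ (x : E) (e : E) ≤ 0 → f (x, z) = eI (θ' (x, z)) := by
    intro x z hx
    rw [← hθ']
    show f (x, z) = f (fold (-e) x, z)
    rw [fold_neg_of_nonpos hx]
  have hconn : IsPreconnected ({x : sphere (0 : E) 1 | inner ℝ (x : E) (e : E) = 0} ×ˢ
      (univ : Set Z)) := (preconnected_equator hE e).prod isPreconnected_univ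
  have h1 : ∀ p ∈ ({x : sphere (0 : E) 1 | inner ℝ (x : E) (e : E) = 0} ×ˢ (univ : Set Z)),
      eI (θ p - θ' p) = 1 := by
    rintro ⟨x, z⟩ ⟨hx, -⟩
    have hx' : inner ℝ (x : E) (e : E) = 0 := hx
    rw [eI_sub, ← hθ1 x z hx'.ge, ← hθ2 x z hx'.le, mul_inv_cancel]
  have hc : ∃ c : ℝ, eI c = 1 ∧
      ∀ p ∈ ({x : sphere (0 : E) 1 | inner ℝ (x : E) (e : E) = 0} ×ˢ (univ : Set Z)),
        θ p = θ' p + c := by
    by_cases hne : ({x : sphere (0 : E) 1 | inner ℝ (x : E) (e : E) = 0} ×ˢ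
      (univ : Set Z)).Nonempty
    · obtain ⟨p₀, hp₀⟩ := hne
      refine ⟨θ p₀ - θ' p₀, h1 p₀ hp₀, fun p hp => ?_⟩
      have := const_of_eI hconn (φ := fun p => θ p - θ' p) (by fun_prop) h1 hp₀ hp
      linarith
    · exact ⟨0, eI_zero, fun p hp => absurd ⟨p, hp⟩ hne⟩
  obtain ⟨c, hc1, hc2⟩ := hc
  refine ⟨⟨fun p => if (0 : ℝ) ≤ inner ℝ (p.1 : E) (e : E) then θ p else θ' p + c, ?_⟩, ?_⟩
  · refine Continuous.if_le (by fun_prop) (by fun_prop) (by fun_prop) (by fun_prop) ?_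
    rintro ⟨x, z⟩ hx
    exact hc2 _ ⟨hx.symm, mem_univ _⟩
  · rintro ⟨x, z⟩
    show f (x, z) = eI (if (0 : ℝ) ≤ inner ℝ (x : E) (e : E) then θ (x, z) else θ' (x, z) + c)
    split_ifs with h
    · exact hθ1 x z h
    · rw [eI_add, hc1, mul_one]
      exact hθ2 x z (le_of_lt (not_le.mp h))

end

/-! ### the fibre of `g ↦ g i g⁻¹` -/

theorem exists_cS_of_comm {u : S3} (h : u * qi * u⁻¹ = qi) : (toC (u : ℍ[ℝ])).2 = 0 := by
  have h1 : u * qi = qi * u := by
    nth_rewrite 2 [← h]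
    group
  have h2 := congrArg (fun x : S3 => toC (x : ℍ[ℝ])) h1
  simp only [Metric.unitSphere.coe_mul, toC_mul, toC_qi] at h2
  have h3 := congrArg Prod.snd h2
  simp only [mul_zero, zero_mul, zero_add, Complex.conj_I, add_zero,
    mul_neg] at h3
  have h4 : 2 * Complex.I * (toC (u : ℍ[ℝ])).2 = 0 := by linear_combination -h3
  have h5 : (2 * Complex.I) ≠ 0 := mul_ne_zero two_ne_zero Complex.I_ne_zero
  exact (mul_eq_zero.mp h4).resolve_left h5

theorem exists_tau {W : Type*} [TopologicalSpace W] (g g' : C(W, S3))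
    (h : ∀ w, g w * qi * (g w)⁻¹ = g' w * qi * (g' w)⁻¹) :
    ∃ τ : C(W, S1), ∀ w, g' w = g w * cS (τ w) := by
  have h0 : ∀ w, (toC (((g w)⁻¹ * g' w : S3) : ℍ[ℝ])).2 = 0 := by
    intro w
    apply exists_cS_of_comm
    calc (g w)⁻¹ * g' w * qi * ((g w)⁻¹ * g' w)⁻¹ = (g w)⁻¹ * (g' w * qi * (g' w)⁻¹) * g w := by
          group
      _ = qi := by rw [← h]; group
  have h1 : ∀ w, ‖(toC (((g w)⁻¹ * g' w : S3) : ℍ[ℝ])).1‖ = 1 := by
    intro w
    have := norm_toC (((g w)⁻¹ * g' w : S3) : ℍ[ℝ])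
    rw [h0, norm_coe, norm_zero] at this
    have h2 := norm_nonneg (toC (((g w)⁻¹ * g' w : S3) : ℍ[ℝ])).1
    nlinarith
  have hc : Continuous (toC : ℍ[ℝ] → ℂ × ℂ) := (toC : ℍ[ℝ] →ₗ[ℝ] ℂ × ℂ).continuous_of_finiteDimensional
  refine ⟨⟨fun w => ⟨(toC (((g w)⁻¹ * g' w : S3) : ℍ[ℝ])).1, mem_sphere_zero_iff_norm.mpr (h1 w)⟩,
    ?_⟩, ?_⟩
  · refine Continuous.subtype_mk ?_ _
    refine continuous_fst.comp (hc.comp ?_)
    exact continuous_subtype_val.comp (by fun_prop)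
  · intro w
    have : (g w)⁻¹ * g' w = cS ⟨(toC (((g w)⁻¹ * g' w : S3) : ℍ[ℝ])).1,
        mem_sphere_zero_iff_norm.mpr (h1 w)⟩ := by
      apply S3_ext
      rw [toC_cS]
      exact Prod.ext rfl (h0 w)
    show g' w = g w * cS ⟨(toC (((g w)⁻¹ * g' w : S3) : ℍ[ℝ])).1,
        mem_sphere_zero_iff_norm.mpr (h1 w)⟩
    rw [← this, mul_inv_cancel_left]

theorem cS_comm_qi (ζ : S1) : cS ζ * qi * (cS ζ)⁻¹ = qi := by
  have : qi = cS ⟨Complex.I, by simp⟩ := rfl
  rw [this, ← cS_mul, mul_comm, cS_mul, mul_inv_cancel_right]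

theorem cS_continuous : Continuous cS := by
  have hc : Continuous (toC.symm : ℂ × ℂ → ℍ[ℝ]) :=
    (toC.symm : ℂ × ℂ →ₗ[ℝ] ℍ[ℝ]).continuous_of_finiteDimensional
  refine Continuous.subtype_mk (hc.comp ?_) _
  fun_prop

theorem mul_cS_lift (g : S3) (ζ : S1) : (g * cS ζ) * qi * (g * cS ζ)⁻¹ = g * qi * g⁻¹ := by
  calc (g * cS ζ) * qi * (g * cS ζ)⁻¹ = g * (cS ζ * qi * (cS ζ)⁻¹) * g⁻¹ := by group
    _ = g * qi * g⁻¹ := by rw [cS_comm_qi]

theorem liftsS_fold {Z : Type*} [TopologicalSpace Z] [CompactSpace Z] (hZ : LiftS Z)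
    (f : C(S3 × Z, S3)) (hf : ∀ p, f p * f p = -1) (e : S3) :
    LiftsS (f.comp ((fold e).prodMap (ContinuousMap.id Z))) := by
  have h : ((ContinuousMap.const S3 e).prodMap (ContinuousMap.id Z)).Homotopic
      ((fold e).prodMap (ContinuousMap.id Z)) :=
    (const_homotopic_fold e).prodMap (ContinuousMap.Homotopic.refl _)
  refine liftsS_of_homotopic hf h ?_
  obtain ⟨g, hg⟩ := hZ (f.comp ((ContinuousMap.const Z e).prodMk (ContinuousMap.id Z)))
    (fun w => hf _)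
  exact ⟨g.comp ContinuousMap.snd, fun w => hg w.2⟩

/-- **Lifting of maps to the 2-sphere on a product with the 3-sphere.** -/
theorem liftS_prod {Z : Type*} [TopologicalSpace Z] [CompactSpace Z] [T2Space Z]
    [PreconnectedSpace Z] (hT : LiftT Z) (hS : LiftS Z) : LiftS (S3 × Z) := by
  intro f hf
  let e : S3 := 1
  obtain ⟨g, hg⟩ := liftsS_fold hS f hf e
  obtain ⟨g', hg'⟩ := liftsS_fold hS f hf (-e)
  have hg1 : ∀ (x : S3) (z : Z), 0 ≤ inner ℝ (x : ℍ[ℝ]) (e : ℍ[ℝ]) →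
      f (x, z) = g (x, z) * qi * (g (x, z))⁻¹ := by
    intro x z hx
    rw [← hg]
    show f (x, z) = f (fold e x, z)
    rw [fold_of_nonneg hx]
  have hg2 : ∀ (x : S3) (z : Z), inner ℝ (x : ℍ[ℝ]) (e : ℍ[ℝ]) ≤ 0 →
      f (x, z) = g' (x, z) * qi * (g' (x, z))⁻¹ := by
    intro x z hx
    rw [← hg']
    show f (x, z) = f (fold (-e) x, z)
    rw [fold_neg_of_nonpos hx]
  -- the transition function on the equator
  let j : C(sphere (0 : (ℝ ∙ (e : ℍ[ℝ]))ᗮ) 1 × Z, S3 × Z) :=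
    (eqEmb e).prodMap (ContinuousMap.id Z)
  have hjx : ∀ v, inner ℝ ((eqEmb e v : S3) : ℍ[ℝ]) (e : ℍ[ℝ]) = 0 := by
    intro v
    have : eqEmb e v ∈ range (eqEmb e) := mem_range_self v
    rw [range_eqEmb] at this
    exact this
  obtain ⟨τ, hτ⟩ := exists_tau (g.comp j) (g'.comp j) (by
    rintro ⟨v, z⟩
    show g (eqEmb e v, z) * qi * (g (eqEmb e v, z))⁻¹ =
      g' (eqEmb e v, z) * qi * (g' (eqEmb e v, z))⁻¹
    rw [← hg1 _ z (hjx v).ge, ← hg2 _ z (hjx v).le])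
  have hfr : 3 ≤ finrank ℝ (ℝ ∙ (e : ℍ[ℝ]))ᗮ := by
    have h1 := finrank_orth e
    rw [Quaternion.finrank_eq_four] at h1
    omega
  obtain ⟨φ, hφ⟩ := liftT_sphere_prod hfr hT τ
  haveI : ProperSpace (ℝ ∙ (e : ℍ[ℝ]))ᗮ := FiniteDimensional.proper_real _
  have hj : IsClosedEmbedding j := by
    refine Topology.IsClosedEmbedding.of_continuous_injective_isClosedMap j.continuous ?_ ?_
    · exact (eqEmb_injective e).prodMap Function.injective_id
    · exact j.continuous.isClosedMap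
  obtain ⟨Φ, hΦ⟩ := ContinuousMap.exists_extension hj φ
  have hΦ' : ∀ v z, Φ (eqEmb e v, z) = φ (v, z) := fun v z => DFunLike.congr_fun hΦ (v, z)
  refine ⟨⟨fun p => if (0 : ℝ) ≤ inner ℝ (p.1 : ℍ[ℝ]) (e : ℍ[ℝ]) then g p * cS (eI (Φ p))
    else g' p, ?_⟩, ?_⟩
  · have hcs := cS_continuous
    refine Continuous.if_le ?_ (by fun_prop) (by fun_prop) (by fun_prop) ?_
    · exact g.continuous.mul (hcs.comp (eI.continuous.comp Φ.continuous))
    · rintro ⟨x, z⟩ hx
      have hx' : x ∈ range (eqEmb e) := by rw [range_eqEmb]; exact hx.symm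
      obtain ⟨v, rfl⟩ := hx'
      show g (eqEmb e v, z) * cS (eI (Φ (eqEmb e v, z))) = g' (eqEmb e v, z)
      rw [hΦ', ← hφ]
      exact (hτ (v, z)).symm
  · rintro ⟨x, z⟩
    show f (x, z) = (if (0 : ℝ) ≤ inner ℝ (x : ℍ[ℝ]) (e : ℍ[ℝ]) then g (x, z) * cS (eI (Φ (x, z)))
      else g' (x, z)) * qi * (if (0 : ℝ) ≤ inner ℝ (x : ℍ[ℝ]) (e : ℍ[ℝ]) then
        g (x, z) * cS (eI (Φ (x, z))) else g' (x, z))⁻¹
    split_ifs with h
    · rw [mul_cS_lift]
      exact hg1 x z h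
    · exact hg2 x z (le_of_lt (not_le.mp h))

end Pool.Agent.Helper90.Lift
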