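import Mathlib
import Pool.Agent.Helper90.Lift.Sphere

/-!
# Lifting on powers of the 3-sphere; two lifts of the same map
-/

open Module Filter Topology Set Metric
open scoped Quaternion unitInterval

set_option linter.unusedSectionVars false
set_option linter.unusedVariables false
set_option linter.style.haveILetI false

namespace Pool.Agent.Helper90.Lift

open Pool.Agent.Helper90.Deg Pool.Agent.Helper5.Z2S

theorem LiftT.of_retract {Z W : Type*} [TopologicalSpace Z] [TopologicalSpace W] (A : C(Z, W))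
    (B : C(W, Z)) (h : ∀ w, A (B w) = w) (hZ : LiftT Z) : LiftT W := by
  intro f
  obtain ⟨θ, hθ⟩ := hZ (f.comp A)
  refine ⟨θ.comp B, fun w => ?_⟩
  show f w = eI (θ (B w))
  rw [← hθ]
  show f w = f (A (B w))
  rw [h]

theorem LiftS.of_retract {Z W : Type*} [TopologicalSpace Z] [TopologicalSpace W] (A : C(Z, W))
    (B : C(W, Z)) (h : ∀ w, A (B w) = w) (hZ : LiftS Z) : LiftS W := by
  intro f hf
  obtain ⟨g, hg⟩ := hZ (f.comp A) (fun z => hf _)
  refine ⟨g.comp B, fun w => ?_⟩
  show f w = g (B w) * qi * (g (B w))⁻¹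
  rw [← hg]
  show f w = f (A (B w))
  rw [h]

theorem qj_anti : qj * qi * qj⁻¹ = -qi := by
  have h : qj * qi = -qi * qj := by
    apply S3_ext
    have e : ((-qi : S3) : ℍ[ℝ]) = -(qi : ℍ[ℝ]) := rfl
    rw [Metric.unitSphere.coe_mul, Metric.unitSphere.coe_mul, toC_mul, toC_mul, e, map_neg, toC_qi,
      toC_qj]
    simp
  rw [h, mul_inv_cancel_right]

/-- every unit quaternion of square `-1` is conjugate to `i` -/
theorem exists_conj (a : S3) (ha : a * a = -1) : ∃ g : S3, a = g * qi * g⁻¹ := by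
  by_cases h : (a : ℍ[ℝ]) = -(qi : ℍ[ℝ])
  · refine ⟨qj, ?_⟩
    rw [qj_anti]
    exact Subtype.ext h
  · obtain ⟨g, hg⟩ := liftsS_of_ne_neg (W := Unit) (f := ContinuousMap.const Unit qi)
      (g := ContinuousMap.const Unit a) (fun _ => qi_sq) (fun _ => ha) (fun _ => h)
      ⟨ContinuousMap.const Unit 1, fun _ => by simp⟩
    exact ⟨g (), hg ()⟩

instance : PreconnectedSpace S3 := by
  have hr : 1 < Module.rank ℝ ℍ[ℝ] := by
    rw [← finrank_eq_rank ℝ, Quaternion.finrank_eq_four]
    norm_num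
  exact Subtype.preconnectedSpace (isPreconnected_sphere hr (0 : ℍ[ℝ]) 1)

theorem liftT_fin (n : ℕ) : LiftT (Fin n → S3) := by
  induction n with
  | zero =>
    intro f
    obtain ⟨t, ht⟩ := eI_surj (f default)
    refine ⟨ContinuousMap.const _ t, fun w => ?_⟩
    rw [Subsingleton.elim w default]
    exact ht.symm
  | succ n ih =>
    have h := liftT_sphere_prod (E := ℍ[ℝ]) (by rw [Quaternion.finrank_eq_four]; norm_num) ih
    refine LiftT.of_retract (⟨fun p => Fin.cons p.1 p.2, by fun_prop⟩ : C(S3 × (Fin n → S3), Fin (n + 1) → S3))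
      ⟨fun w => (w 0, fun i => w i.succ), by fun_prop⟩ (fun w => ?_) h
    exact Fin.cons_self_tail w

theorem liftS_fin (n : ℕ) : LiftS (Fin n → S3) := by
  induction n with
  | zero =>
    intro f hf
    obtain ⟨g, hg⟩ := exists_conj (f default) (hf default)
    refine ⟨ContinuousMap.const _ g, fun w => ?_⟩
    rw [Subsingleton.elim w default]
    exact hg
  | succ n ih =>
    have h := liftS_prod (liftT_fin n) ih
    refine LiftS.of_retract (⟨fun p => Fin.cons p.1 p.2, by fun_prop⟩ : C(S3 × (Fin n → S3), Fin (n + 1) → S3))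
      ⟨fun w => (w 0, fun i => w i.succ), by fun_prop⟩ (fun w => ?_) h
    exact Fin.cons_self_tail w

theorem liftT_S3 : LiftT S3 :=
  LiftT.of_retract (⟨fun p => p 0, by fun_prop⟩ : C(Fin 1 → S3, S3)) ⟨fun w _ => w, by fun_prop⟩
    (fun w => rfl) (liftT_fin 1)

theorem liftT_I_prod {W : Type*} [TopologicalSpace W] [CompactSpace W] (hW : LiftT W) :
    LiftT (I × W) := by
  intro f
  have h : ((ContinuousMap.const I (0 : I)).prodMap (ContinuousMap.id W)).Homotopic
      (ContinuousMap.id (I × W)) := by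
    refine ⟨⟨⟨fun p => (p.1 * p.2.1, p.2.2), by fun_prop⟩, ?_, ?_⟩⟩
    · rintro ⟨s, w⟩
      show ((0 : I) * s, w) = (0, w)
      rw [zero_mul]
    · rintro ⟨s, w⟩
      show ((1 : I) * s, w) = (s, w)
      rw [one_mul]
  have h2 := LiftsT.of_homotopic ((ContinuousMap.Homotopic.refl f).comp h) (by
    obtain ⟨θ, hθ⟩ := hW (f.comp ((ContinuousMap.const W (0 : I)).prodMk (ContinuousMap.id W)))
    exact ⟨θ.comp ContinuousMap.snd, fun w => hθ w.2⟩)
  exact h2

/-- two lifts of the same map differ by `e^{iθ}` -/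
theorem exists_theta {W : Type*} [TopologicalSpace W] (hW : LiftT W) (g g' : C(W, S3))
    (h : ∀ w, g w * qi * (g w)⁻¹ = g' w * qi * (g' w)⁻¹) :
    ∃ θ : C(W, ℝ), ∀ w, g' w = g w * cS (eI (θ w)) := by
  obtain ⟨τ, hτ⟩ := exists_tau g g' h
  obtain ⟨θ, hθ⟩ := hW τ
  exact ⟨θ, fun w => by rw [hτ, hθ]⟩

/-- multiplication of a map by `e^{iθ}` -/
noncomputable def twist {W : Type*} [TopologicalSpace W] (g : C(W, S3)) (θ : C(W, ℝ)) :
    C(W, S3) :=
  ⟨fun w => g w * cS (eI (θ w)),
    g.continuous.mul (cS_continuous.comp (eI.continuous.comp θ.continuous))⟩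

theorem twist_apply {W : Type*} [TopologicalSpace W] (g : C(W, S3)) (θ : C(W, ℝ)) (w : W) :
    twist g θ w = g w * cS (eI (θ w)) := rfl

theorem twist_homotopic {W : Type*} [TopologicalSpace W] (g : C(W, S3)) (θ : C(W, ℝ)) :
    g.Homotopic (twist g θ) := by
  refine ⟨⟨⟨fun p => g p.2 * cS (eI ((p.1 : ℝ) * θ p.2)), ?_⟩, ?_, ?_⟩⟩
  · exact (g.continuous.comp continuous_snd).mul (cS_continuous.comp (eI.continuous.comp
      ((continuous_subtype_val.comp continuous_fst).mul (θ.continuous.comp continuous_snd))))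
  · intro w
    show g w * cS (eI (((0 : I) : ℝ) * θ w)) = g w
    rw [Set.Icc.coe_zero, zero_mul, eI_zero, cS_one, mul_one]
  · intro w
    show g w * cS (eI (((1 : I) : ℝ) * θ w)) = g w * cS (eI (θ w))
    rw [Set.Icc.coe_one, one_mul]

end Pool.Agent.Helper90.Lift
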