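import Mathlib
import Pool.Agent.Helper90.Lift.Prod

/-!
# Equivariant lifts for circle actions
-/

open Module Filter Topology Set Metric MeasureTheory
open scoped Quaternion unitInterval

set_option linter.unusedSectionVars false
set_option linter.unusedVariables false
set_option linter.style.haveILetI false

namespace Pool.Agent.Helper90.Lift

open Pool.Agent.Helper90.Deg Pool.Agent.Helper5.Z2S

theorem cS_injective : Function.Injective cS := by
  intro ζ ξ h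
  have h1 := congrArg (fun x : S3 => (toC (x : ℍ[ℝ])).1) h
  simp only [toC_cS] at h1
  exact Subtype.ext h1

instance : PreconnectedSpace S1 := by
  have hr : 1 < Module.rank ℝ ℂ := by
    rw [← finrank_eq_rank ℝ, Complex.finrank_real_complex]
    norm_num
  exact Subtype.preconnectedSpace (isPreconnected_sphere hr (0 : ℂ) 1)

/-- the quotient map `[0,1] × W → S¹ × W` -/
noncomputable def qmap (W : Type*) [TopologicalSpace W] : C(I × W, S1 × W) :=
  ⟨fun p => (eI (2 * Real.pi * p.1), p.2), by fun_prop⟩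

theorem qmap_surjective (W : Type*) [TopologicalSpace W] : Function.Surjective (qmap W) := by
  rintro ⟨ζ, w⟩
  obtain ⟨t, rfl⟩ := eI_surj ζ
  have hpi : (0 : ℝ) < 2 * Real.pi := by positivity
  have h1 : Int.fract (t / (2 * Real.pi)) ∈ I := ⟨Int.fract_nonneg _, (Int.fract_lt_one _).le⟩
  refine ⟨(⟨Int.fract (t / (2 * Real.pi)), h1⟩, w), ?_⟩
  refine Prod.ext ?_ rfl
  show eI (2 * Real.pi * Int.fract (t / (2 * Real.pi))) = eI t
  have h2 : t = 2 * Real.pi * Int.fract (t / (2 * Real.pi)) + ⌊t / (2 * Real.pi)⌋ * (2 * Real.pi) := by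
    have := Int.floor_add_fract (t / (2 * Real.pi))
    field_simp at this ⊢
    linarith
  conv_rhs => rw [h2, eI_add, (eI_eq_one_iff _).mpr ⟨_, rfl⟩, mul_one]

theorem qmap_quotient (W : Type*) [TopologicalSpace W] [CompactSpace W] [T2Space W] :
    IsQuotientMap (qmap W) :=
  (qmap W).continuous.isClosedMap.isQuotientMap (qmap W).continuous (qmap_surjective W)

theorem qmap_fibre {W : Type*} [TopologicalSpace W] {p p' : I × W} (h : qmap W p = qmap W p') :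
    p.2 = p'.2 ∧ (p.1 = p'.1 ∨ (p.1 = 0 ∧ p'.1 = 1) ∨ (p.1 = 1 ∧ p'.1 = 0)) := by
  have h2 : p.2 = p'.2 := by
    show (qmap W p).2 = (qmap W p').2
    rw [h]
  refine ⟨h2, ?_⟩
  have h1 : eI (2 * Real.pi * p.1) = eI (2 * Real.pi * p'.1) := by
    show (qmap W p).1 = (qmap W p').1
    rw [h]
  have h3 : eI (2 * Real.pi * p.1 - 2 * Real.pi * p'.1) = 1 := by
    rw [eI_sub, h1, mul_inv_cancel]
  obtain ⟨n, hn⟩ := (eI_eq_one_iff _).mp h3
  have hpi : (0 : ℝ) < 2 * Real.pi := by positivity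
  have h4 : (p.1 : ℝ) - p'.1 = n := by
    have : (2 * Real.pi) * ((p.1 : ℝ) - p'.1) = (2 * Real.pi) * n := by linarith
    exact mul_left_cancel₀ hpi.ne' this
  have a0 := p.1.2.1
  have a1 := p.1.2.2
  have b0 := p'.1.2.1
  have b1 := p'.1.2.2
  have hn1 : -1 ≤ n := by
    have : (-1 : ℝ) ≤ n := by linarith
    exact_mod_cast this
  have hn2 : n ≤ 1 := by
    have : (n : ℝ) ≤ 1 := by linarith
    exact_mod_cast this
  have hcases : n = -1 ∨ n = 0 ∨ n = 1 := by omega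
  rcases hcases with rfl | rfl | rfl
  · right; left
    push_cast at h4
    exact ⟨Subtype.ext (by show (p.1 : ℝ) = 0; linarith),
      Subtype.ext (by show (p'.1 : ℝ) = 1; linarith)⟩
  · left
    push_cast at h4
    exact Subtype.ext (by linarith)
  · right; right
    push_cast at h4
    exact ⟨Subtype.ext (by show (p.1 : ℝ) = 1; linarith),
      Subtype.ext (by show (p'.1 : ℝ) = 0; linarith)⟩

/-- **Equivariant lift** for a circle action. -/
theorem exists_equivariant {W : Type*} [TopologicalSpace W] [CompactSpace W] [T2Space W]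
    [PreconnectedSpace W] [FirstCountableTopology W] (hW : LiftT W) (A : C(S1 × W, W))
    (hA1 : ∀ w, A (1, w) = w) (hA2 : ∀ ζ ξ w, A (ζ * ξ, w) = A (ζ, A (ξ, w))) (g : C(W, S3))
    (hg : ∀ ζ w, g (A (ζ, w)) * qi * (g (A (ζ, w)))⁻¹ = g w * qi * (g w)⁻¹) :
    ∃ (d : ℤ) (ψ : C(W, ℝ)), ∀ ζ w, twist g ψ (A (ζ, w)) = twist g ψ w * cS ζ ^ d := by
  by_cases hne : Nonempty W
  swap
  · exact ⟨0, ContinuousMap.const W 0, fun ζ w => absurd ⟨w⟩ hne⟩
  obtain ⟨w₀⟩ := hne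
  obtain ⟨τ, hτ⟩ := exists_tau (g.comp (ContinuousMap.snd : C(S1 × W, W))) (g.comp A)
    (fun p => (hg p.1 p.2).symm)
  have hτ' : ∀ ζ w, g (A (ζ, w)) = g w * cS (τ (ζ, w)) := fun ζ w => hτ (ζ, w)
  have hτ1 : ∀ w, τ (1, w) = 1 := by
    intro w
    apply cS_injective
    have := hτ' 1 w
    rw [hA1] at this
    rw [cS_one]
    exact (mul_eq_left.mp this.symm)
  have hτ2 : ∀ ζ ξ w, τ (ζ * ξ, w) = τ (ζ, A (ξ, w)) * τ (ξ, w) := by
    intro ζ ξ w
    apply cS_injective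
    have h1 := hτ' (ζ * ξ) w
    rw [hA2, hτ' ζ (A (ξ, w)), hτ' ξ w, mul_assoc, mul_right_inj] at h1
    rw [← h1, mul_comm (τ (ζ, A (ξ, w))), cS_mul]
  obtain ⟨Θ, hΘ⟩ := liftT_I_prod hW (τ.comp (qmap W))
  have hΘ' : ∀ s w, τ (eI (2 * Real.pi * (s : I)), w) = eI (Θ (s, w)) := fun s w => hΘ (s, w)
  have e0 : ∀ w, eI (Θ (0, w)) = 1 := by
    intro w
    rw [← hΘ']
    simp [eI_zero, hτ1]
  have e1 : ∀ w, eI (Θ (1, w)) = 1 := by
    intro w
    rw [← hΘ']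
    simp [eI_two_pi, hτ1]
  have c0 : ∀ w, Θ (0, w) = Θ (0, w₀) := fun w =>
    const_of_eI isPreconnected_univ (φ := fun w => Θ (0, w)) (by fun_prop) (fun w _ => e0 w)
      (mem_univ _) (mem_univ _)
  have c1 : ∀ w, Θ (1, w) = Θ (1, w₀) := fun w =>
    const_of_eI isPreconnected_univ (φ := fun w => Θ (1, w)) (by fun_prop) (fun w _ => e1 w)
      (mem_univ _) (mem_univ _)
  obtain ⟨n0, hn0⟩ := (eI_eq_one_iff _).mp (e0 w₀)
  obtain ⟨n1, hn1⟩ := (eI_eq_one_iff _).mp (e1 w₀)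
  let d : ℤ := n1 - n0
  let Θ' : C(I × W, ℝ) := ⟨fun p => Θ p - Θ (0, w₀) - d * (2 * Real.pi) * p.1, by fun_prop⟩
  have hΘ'0 : ∀ w, Θ' (0, w) = 0 := by
    intro w
    show Θ (0, w) - Θ (0, w₀) - d * (2 * Real.pi) * ((0 : I) : ℝ) = 0
    rw [c0 w]
    simp
  have hΘ'1 : ∀ w, Θ' (1, w) = 0 := by
    intro w
    show Θ (1, w) - Θ (0, w₀) - d * (2 * Real.pi) * ((1 : I) : ℝ) = 0
    rw [c1 w, hn0, hn1]
    simp only [d, Int.cast_sub, Set.Icc.coe_one]
    ring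
  have hfac : Function.FactorsThrough Θ' (qmap W) := by
    rintro ⟨s, w⟩ ⟨s', w'⟩ h
    obtain ⟨hw, hs⟩ := qmap_fibre h
    simp only at hw hs
    subst hw
    rcases hs with rfl | ⟨rfl, rfl⟩ | ⟨rfl, rfl⟩
    · rfl
    · rw [hΘ'0, hΘ'1]
    · rw [hΘ'0, hΘ'1]
  let Θ'' : C(S1 × W, ℝ) := (qmap_quotient W).lift Θ' hfac
  have hΘ'' : ∀ s w, Θ'' (eI (2 * Real.pi * (s : I)), w) = Θ' (s, w) := by
    intro s w
    exact DFunLike.congr_fun ((qmap_quotient W).lift_comp Θ' hfac) (s, w)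
  have hΘ1 : ∀ w, Θ'' (1, w) = 0 := by
    intro w
    have := hΘ'' 0 w
    simp only [Set.Icc.coe_zero, mul_zero, eI_zero] at this
    rw [this, hΘ'0]
  have hΘe : ∀ ζ w, eI (Θ'' (ζ, w)) = τ (ζ, w) * (ζ ^ d)⁻¹ := by
    intro ζ w
    obtain ⟨⟨s, w'⟩, hs⟩ := qmap_surjective W (ζ, w)
    have h1 : eI (2 * Real.pi * s) = ζ := congrArg Prod.fst hs
    have h2 : w' = w := congrArg Prod.snd hs
    subst h2
    rw [← h1, hΘ'']
    show eI (Θ (s, w') - Θ (0, w₀) - d * (2 * Real.pi) * (s : ℝ)) = _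
    rw [eI_sub, eI_sub, e0, inv_one, mul_one, ← hΘ', eI_zpow]
    congr 3
    ring
  have hcoc : ∀ ζ ξ w, Θ'' (ζ * ξ, w) - Θ'' (ζ, A (ξ, w)) - Θ'' (ξ, w) = 0 := by
    intro ζ ξ w
    have h1 := const_of_eI (isPreconnected_univ (α := S1 × (S1 × W)))
      (φ := fun p => Θ'' (p.1 * p.2.1, p.2.2) - Θ'' (p.1, A (p.2.1, p.2.2)) - Θ'' (p.2.1, p.2.2))
      (by fun_prop) (fun p _ => by
        rw [eI_sub, eI_sub, hΘe, hΘe, hΘe, hτ2, mul_zpow]
        have : ∀ a b c e : S1, a * b * (c * e)⁻¹ * (a * c⁻¹)⁻¹ * (b * e⁻¹)⁻¹ = 1 := by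
          intro a b c e
          rw [mul_inv, mul_inv, mul_inv, inv_inv, inv_inv]
          calc a * b * (c⁻¹ * e⁻¹) * (a⁻¹ * c) * (b⁻¹ * e) =
              (a * a⁻¹) * (b * b⁻¹) * (c⁻¹ * c) * (e⁻¹ * e) := by ac_rfl
            _ = 1 := by simp
        exact this _ _ _ _)
      (mem_univ (ζ, ξ, w)) (mem_univ (1, ξ, w))
    simp only at h1
    rw [h1, one_mul, hΘ1]
    ring
  -- averaging
  have hcont : Continuous (fun p : W × ℝ => Θ'' (eI (2 * Real.pi * p.2), p.1)) := by fun_prop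
  let ψ : C(W, ℝ) := ⟨fun w => ∫ s in (0 : ℝ)..1, Θ'' (eI (2 * Real.pi * s), w), by
    exact intervalIntegral.continuous_parametric_intervalIntegral_of_continuous'
      (f := fun w s => Θ'' (eI (2 * Real.pi * s), w)) hcont 0 1⟩
  have hψ : ∀ ξ w, ψ (A (ξ, w)) = ψ w - Θ'' (ξ, w) := by
    intro ξ w
    obtain ⟨a, ha⟩ : ∃ a : ℝ, ξ = eI (2 * Real.pi * a) := by
      obtain ⟨t, rfl⟩ := eI_surj ξ
      exact ⟨t / (2 * Real.pi), by congr 1; field_simp⟩
    show ∫ s in (0 : ℝ)..1, Θ'' (eI (2 * Real.pi * s), A (ξ, w)) =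
      (∫ s in (0 : ℝ)..1, Θ'' (eI (2 * Real.pi * s), w)) - Θ'' (ξ, w)
    have h1 : ∀ s : ℝ, Θ'' (eI (2 * Real.pi * s), A (ξ, w)) =
        Θ'' (eI (2 * Real.pi * (s + a)), w) - Θ'' (ξ, w) := by
      intro s
      have := hcoc (eI (2 * Real.pi * s)) ξ w
      rw [mul_add, eI_add, ← ha]
      linarith
    simp_rw [h1]
    rw [intervalIntegral.integral_sub, intervalIntegral.integral_const]
    · have hper : Function.Periodic (fun s : ℝ => Θ'' (eI (2 * Real.pi * s), w)) 1 := by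
        intro s
        simp only
        rw [mul_add, mul_one, eI_add, eI_two_pi, mul_one]
      have h2 := hper.intervalIntegral_add_eq a 0
      rw [intervalIntegral.integral_comp_add_right (fun s : ℝ => Θ'' (eI (2 * Real.pi * s), w)) a]
      rw [zero_add, add_comm 1 a, h2, zero_add]
      simp
    · exact Continuous.intervalIntegrable (by fun_prop) _ _
    · exact Continuous.intervalIntegrable (by fun_prop) _ _
  refine ⟨d, ψ, fun ζ w => ?_⟩
  rw [twist_apply, twist_apply, hψ, hτ', eI_sub, hΘe, mul_assoc, mul_assoc, ← cS_mul, ← cS_zpow,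
    ← cS_mul]
  congr 2
  rw [mul_inv, inv_inv]
  calc τ (ζ, w) * (eI (ψ w) * ((τ (ζ, w))⁻¹ * ζ ^ d)) =
      (τ (ζ, w) * (τ (ζ, w))⁻¹) * (eI (ψ w) * ζ ^ d) := by ac_rfl
    _ = eI (ψ w) * ζ ^ d := by rw [mul_inv_cancel, one_mul]

theorem S3_mul_neg (x y : S3) : x * -y = -(x * y) :=
  Subtype.ext (mul_neg (x : ℍ[ℝ]) (y : ℍ[ℝ]))

theorem S3_neg_mul (x y : S3) : -x * y = -(x * y) :=
  Subtype.ext (neg_mul (x : ℍ[ℝ]) (y : ℍ[ℝ]))

theorem qj_cS (ζ : S1) : cS ζ * qj = qj * cS ζ⁻¹ := by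
  apply S3_ext
  rw [Metric.unitSphere.coe_mul, Metric.unitSphere.coe_mul, toC_mul, toC_mul, toC_cS, toC_cS,
    toC_qj]
  have h1 : ((ζ⁻¹ : S1) : ℂ) = (starRingEnd ℂ) (ζ : ℂ) := by
    rw [Metric.unitSphere.coe_inv, Complex.inv_def, Complex.normSq_eq_norm_sq,
      mem_sphere_zero_iff_norm.mp ζ.2]
    simp
  rw [h1]
  simp

/-- the weight of an equivariant lift vanishes as soon as the map is anti-invariant under a map
commuting with the circle action -/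
theorem weight_eq_zero {W : Type*} [TopologicalSpace W] (hW : LiftT W) (w₀ : W) (A : C(S1 × W, W))
    (hA1 : ∀ w, A (1, w) = w) (ν : C(W, W)) (hν : ∀ ζ w, ν (A (ζ, w)) = A (ζ, ν w))
    (g : C(W, S3)) (d : ℤ) (hg : ∀ ζ w, g (A (ζ, w)) = g w * cS ζ ^ d)
    (hgν : ∀ w, g (ν w) * qi * (g (ν w))⁻¹ = -(g w * qi * (g w)⁻¹)) : d = 0 := by
  obtain ⟨θ, hθ⟩ := exists_theta hW (⟨fun w => g w * qj, by fun_prop⟩ : C(W, S3)) (g.comp ν) (by
    intro w
    show g w * qj * qi * (g w * qj)⁻¹ = g (ν w) * qi * (g (ν w))⁻¹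
    rw [hgν]
    calc g w * qj * qi * (g w * qj)⁻¹ = g w * (qj * qi * qj⁻¹) * (g w)⁻¹ := by group
      _ = -(g w * qi * (g w)⁻¹) := by rw [qj_anti, S3_mul_neg, S3_neg_mul])
  have hθ' : ∀ w, g (ν w) = g w * qj * cS (eI (θ w)) := hθ
  have key : ∀ ζ w, (ζ ^ d)⁻¹ * eI (θ (A (ζ, w))) = eI (θ w) * ζ ^ d := by
    intro ζ w
    have h1 := hθ' (A (ζ, w))
    rw [hν, hg, hθ', hg, ← cS_zpow, mul_assoc (g w) (cS (ζ ^ d)), qj_cS, mul_assoc, mul_assoc,
      mul_assoc, mul_assoc, mul_right_inj, mul_right_inj, ← cS_mul, ← cS_mul] at h1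
    exact (cS_injective h1).symm
  have h2 : ∀ s : ℝ, eI (θ (A (eI s, w₀)) - θ w₀ - 2 * d * s) = 1 := by
    intro s
    have h3 : eI (2 * d * s) = eI s ^ d * eI s ^ d := by
      rw [eI_zpow, ← eI_add]
      congr 1
      ring
    have h4 : eI (θ (A (eI s, w₀))) = eI s ^ d * eI (θ w₀) * eI s ^ d := by
      rw [mul_assoc, ← key, mul_inv_cancel_left]
    rw [eI_sub, eI_sub, h3, h4, mul_inv]
    calc eI s ^ d * eI (θ w₀) * eI s ^ d * (eI (θ w₀))⁻¹ * ((eI s ^ d)⁻¹ * (eI s ^ d)⁻¹) =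
        (eI s ^ d * (eI s ^ d)⁻¹) * (eI s ^ d * (eI s ^ d)⁻¹) *
          (eI (θ w₀) * (eI (θ w₀))⁻¹) := by ac_rfl
      _ = 1 := by simp
  have h5 := const_of_eI (isPreconnected_univ (α := ℝ))
    (φ := fun s => θ (A (eI s, w₀)) - θ w₀ - 2 * d * s) (by fun_prop) (fun s _ => h2 s)
    (mem_univ 0) (mem_univ (2 * Real.pi))
  rw [eI_zero, eI_two_pi, hA1] at h5
  have h6 : (d : ℝ) * (4 * Real.pi) = 0 := by linarith
  have h7 : (d : ℝ) = 0 := by
    rcases mul_eq_zero.mp h6 with h | h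
    · exact h
    · exact absurd h (by positivity)
  exact_mod_cast h7

end Pool.Agent.Helper90.Lift
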