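import Mathlib
import Pool.Agent.Helper90.Lift.Equiv

/-!
# The `ℤ/4`-lemma
-/

open Module Filter Topology Set Metric MeasureTheory
open scoped Quaternion unitInterval

set_option linter.unusedSectionVars false
set_option linter.unusedVariables false
set_option linter.style.haveILetI false

namespace Pool.Agent.Helper90.Lift

open Pool.Agent.Helper90.Deg Pool.Agent.Helper5.Z2S

theorem S3_neg_neg (x : S3) : - -x = x := Subtype.ext (neg_neg (x : ℍ[ℝ]))

theorem qi_inv : qi⁻¹ = -qi := by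
  rw [inv_eq_iff_mul_eq_one, S3_mul_neg, qi_sq, S3_neg_neg]

theorem qj_sq : qj * qj = -1 := by
  apply S3_ext
  rw [Metric.unitSphere.coe_mul, toC_mul, toC_qj]
  have : ((-1 : S3) : ℍ[ℝ]) = -1 := rfl
  rw [this, map_neg, toC_one]
  simp

theorem qi_pow_four : qi ^ 4 = 1 := by
  rw [show (4 : ℕ) = 2 * 2 from rfl, pow_mul, pow_two qi, qi_sq, pow_two, S3_mul_neg, S3_neg_mul,
    S3_neg_neg, one_mul]

/-- multiplication by `i` on the left -/
noncomputable def li : C(S3, S3) := ⟨fun x => qi * x, by fun_prop⟩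

theorem li_apply (x : S3) : li x = qi * x := rfl

/-- **The `ℤ/4`-lemma.** -/
theorem deg_of_qi_anti (a : C(S3, S3))
    (h : ∀ s, a (qi * s) * qi * (a (qi * s))⁻¹ = -(a s * qi * (a s)⁻¹)) :
    (4 : ℤ) ∣ deg a + 1 := by
  obtain ⟨θ, hθ⟩ := exists_theta liftT_S3 (⟨fun w => a w * qj, by fun_prop⟩ : C(S3, S3))
    (a.comp li) (by
    intro w
    show a w * qj * qi * (a w * qj)⁻¹ = a (qi * w) * qi * (a (qi * w))⁻¹
    rw [h]
    calc a w * qj * qi * (a w * qj)⁻¹ = a w * (qj * qi * qj⁻¹) * (a w)⁻¹ := by group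
      _ = -(a w * qi * (a w)⁻¹) := by rw [qj_anti, S3_mul_neg, S3_neg_mul])
  have hθ' : ∀ w, a (qi * w) = a w * qj * cS (eI (θ w)) := hθ
  have h4 : ∀ s : S3, qi * (qi * (qi * (qi * s))) = s := by
    intro s
    have := qi_pow_four
    calc qi * (qi * (qi * (qi * s))) = qi ^ 4 * s := by
          rw [show (4 : ℕ) = 1 + 1 + 1 + 1 from rfl, pow_succ, pow_succ, pow_succ, pow_one]
          simp only [mul_assoc]
      _ = s := by rw [this, one_mul]
  -- going around twice
  have h2 : ∀ s, a (qi * (qi * s)) = -(a s * cS (eI (θ (qi * s) - θ s))) := by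
    intro s
    rw [hθ', hθ', mul_assoc (a s * qj), qj_cS, mul_assoc, mul_assoc (a s), ← mul_assoc qj,
      ← mul_assoc qj, qj_sq, mul_assoc, S3_neg_mul, one_mul, ← cS_mul, S3_mul_neg]
    congr 3
    rw [eI_sub, mul_comm]
  have h5 : ∀ s, eI (θ s - θ (qi * s) + θ (qi * (qi * s)) - θ (qi * (qi * (qi * s)))) = 1 := by
    intro s
    have e1 := h2 (qi * (qi * s))
    rw [h4, h2 s, S3_neg_mul, S3_neg_neg, mul_assoc, ← cS_mul, ← eI_add] at e1
    have e2 : cS (eI (θ (qi * s) - θ s + (θ (qi * (qi * (qi * s))) - θ (qi * (qi * s))))) = 1 :=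
      (mul_eq_left.mp e1.symm)
    have e3 := cS_injective (e2.trans cS_one.symm)
    rw [show θ s - θ (qi * s) + θ (qi * (qi * s)) - θ (qi * (qi * (qi * s))) =
      -(θ (qi * s) - θ s + (θ (qi * (qi * (qi * s))) - θ (qi * (qi * s)))) by ring, eI_neg, e3,
      inv_one]
  have h6 : ∀ s, θ s - θ (qi * s) + θ (qi * (qi * s)) - θ (qi * (qi * (qi * s))) = 0 := by
    intro s
    have e1 := const_of_eI isPreconnected_univ
      (φ := fun s => θ s - θ (qi * s) + θ (qi * (qi * s)) - θ (qi * (qi * (qi * s))))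
      (by fun_prop) (fun s _ => h5 s) (mem_univ s) (mem_univ (qi * s))
    simp only [h4] at e1
    linarith
  let Ψ : C(S3, ℝ) := ⟨fun s => -(θ s / 4 - θ (qi * (qi * s)) / 4 + θ (qi * (qi * (qi * s))) / 2),
    by fun_prop⟩
  have hΨ : ∀ s, θ s + Ψ (qi * s) + Ψ s = 0 := by
    intro s
    show θ s + -(θ (qi * s) / 4 - θ (qi * (qi * (qi * s))) / 4 +
      θ (qi * (qi * (qi * (qi * s)))) / 2) +
      -(θ s / 4 - θ (qi * (qi * s)) / 4 + θ (qi * (qi * (qi * s))) / 2) = 0
    rw [h4]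
    have := h6 s
    linarith
  -- the corrected map
  have ha' : ∀ s, twist a Ψ (qi * s) = twist a Ψ s * qj := by
    intro s
    rw [twist_apply, twist_apply, hθ', mul_assoc (a s), mul_assoc (a s), mul_assoc (a s), qj_cS,
      mul_assoc qj, ← cS_mul]
    congr 3
    rw [← eI_neg, ← eI_add]
    congr 1
    have := hΨ s
    linarith
  obtain ⟨y, hy⟩ : ∃ y : S3, y⁻¹ * qi⁻¹ * y = qj := by
    obtain ⟨g, hg⟩ := exists_conj (-qj) (by rw [S3_mul_neg, S3_neg_mul, S3_neg_neg, qj_sq])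
    refine ⟨g⁻¹, ?_⟩
    rw [qi_inv, inv_inv, S3_mul_neg, S3_neg_mul, ← hg, S3_neg_neg]
  let u : C(S3, S3) := ⟨fun s => s⁻¹ * y, by fun_prop⟩
  have hu : ∀ s, u (qi * s) = u s * qj := by
    intro s
    show (qi * s)⁻¹ * y = s⁻¹ * y * qj
    rw [← hy]
    group
  have hinv : ∀ s, (twist a Ψ * u⁻¹) (qi * s * 1) = (twist a Ψ * u⁻¹) s := by
    intro s
    rw [mul_one]
    show twist a Ψ (qi * s) * (u (qi * s))⁻¹ = twist a Ψ s * (u s)⁻¹
    rw [ha', hu]
    group
  have hdvd := dvd_deg_rot (twist a Ψ * u⁻¹) qi 1 4 (by norm_num)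
    (by rw [qi_pow_four, one_pow, one_mul]) (fun x => by rw [qi_pow_four, one_mul, mul_one]) 1 (by
      intro k hk1 hk2 hcon
      rw [one_pow, mul_one, mul_one] at hcon
      have hk : k = 1 ∨ k = 2 ∨ k = 3 := by omega
      have hne : (-1 : S3) ≠ 1 := by
        intro h1
        have h2 : (-1 : ℍ[ℝ]) = 1 := congrArg Subtype.val h1
        have h3 : (-1 : ℍ[ℝ]).re = (1 : ℍ[ℝ]).re := by rw [h2]
        simp at h3
        norm_num at h3
      have hi2 : qi ^ 2 = -1 := by rw [pow_two, qi_sq]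
      rcases hk with rfl | rfl | rfl
      · rw [pow_one] at hcon
        rw [hcon, one_pow] at hi2
        exact hne hi2.symm
      · rw [hi2] at hcon
        exact hne hcon
      · have h1 : qi ^ 4 = qi := by rw [pow_succ, hcon, one_mul]
        rw [qi_pow_four] at h1
        rw [← h1, one_pow] at hi2
        exact hne hi2.symm) hinv
  have hdu : deg u = -1 := by
    have e1 : u = (ContinuousMap.id S3)⁻¹ * ContinuousMap.const S3 y := by
      refine ContinuousMap.ext fun s => ?_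
      rfl
    rw [e1, deg_mul, deg_inv, deg_id, deg_const]
    norm_num
  rw [deg_mul, deg_inv, hdu, ← deg_homotopic (twist_homotopic a Ψ)] at hdvd
  simpa using hdvd

end Pool.Agent.Helper90.Lift
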