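import Mathlib
import Pool.Agent.Helper90.Lift.ZFour

/-!
# Non-existence of equivariant maps `X → S²`, `Y → S²` (MP_bd7361_gt)
-/

open Module Filter Topology Set Metric MeasureTheory
open scoped Quaternion unitInterval

set_option linter.unusedSectionVars false
set_option linter.unusedVariables false
set_option linter.style.haveILetI false

namespace Pool.Agent.Helper90.Lift

open Pool.Agent.Helper90.Deg Pool.Agent.Helper5.Z2S

/-- the circle action by right multiplications with weights `h` -/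
noncomputable def rAct (h : Fin 4 → ℤ) : C(S1 × (Fin 4 → S3), Fin 4 → S3) :=
  ⟨fun q j => q.2 j * cS q.1 ^ h j, by
    have hc := cS_continuous
    refine continuous_pi fun j => ?_
    exact ((continuous_apply j).comp continuous_snd).mul ((hc.comp continuous_fst).zpow (h j))⟩

theorem rAct_apply (h : Fin 4 → ℤ) (ζ : S1) (p : Fin 4 → S3) (j : Fin 4) :
    rAct h (ζ, p) j = p j * cS ζ ^ h j := rfl

theorem rAct_one (h : Fin 4 → ℤ) (p : Fin 4 → S3) : rAct h (1, p) = p := by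
  funext j
  rw [rAct_apply, cS_one, one_zpow, mul_one]

theorem rAct_mul (h : Fin 4 → ℤ) (ζ ξ : S1) (p : Fin 4 → S3) :
    rAct h (ζ * ξ, p) = rAct h (ζ, rAct h (ξ, p)) := by
  funext j
  rw [rAct_apply, rAct_apply, rAct_apply, mul_assoc, ← cS_zpow, ← cS_zpow, ← cS_zpow, ← cS_mul,
    mul_comm ζ ξ, mul_zpow]

theorem pdeg_homotopic {g g' : C(Fin 4 → S3, S3)} (h : g.Homotopic g') (j : Fin 4) :
    pdeg g j = pdeg g' j :=
  deg_homotopic (h.comp (ContinuousMap.Homotopic.refl _))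

/-- the weight relation for a circle acting by right multiplications commuting with `ν` -/
theorem weight_rel (f g : C(Fin 4 → S3, S3)) (hg : ∀ p, f p = g p * qi * (g p)⁻¹)
    (h : Fin 4 → ℤ) (hf : ∀ ζ p, f (rAct h (ζ, p)) = f p) (ν : C(Fin 4 → S3, Fin 4 → S3))
    (hν : ∀ ζ p, ν (rAct h (ζ, p)) = rAct h (ζ, ν p)) (hfν : ∀ p, f (ν p) = -f p) :
    ∑ j, pdeg g j * (h j) ^ 2 = 0 := by
  obtain ⟨d, ψ, hd⟩ := exists_equivariant (liftT_fin 4) (rAct h) (rAct_one h) (rAct_mul h) g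
    (fun ζ w => by rw [← hg, ← hg, hf])
  have hlift : ∀ p, twist g ψ p * qi * (twist g ψ p)⁻¹ = f p := by
    intro p
    rw [twist_apply, mul_cS_lift, hg]
  have hd0 : d = 0 := weight_eq_zero (liftT_fin 4) (fun _ => 1) (rAct h) (rAct_one h) ν hν
    (twist g ψ) d hd (fun w => by rw [hlift, hlift, hfν])
  subst hd0
  have hw := weight_formula (twist g ψ) h (fun j => -h j) 0 0 (by
    intro ζ x
    have e : (fun j => ta (h j) (-h j) ζ (x j)) = rAct h (ζ, x) := by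
      funext j
      have := ta_eq 0 (h j) ζ (x j)
      rw [zero_add, zero_sub, zpow_zero, one_mul] at this
      rw [this, rAct_apply]
    rw [e, hd]
    simp)
  have e2 : ∀ j, pdeg (twist g ψ) j = pdeg g j := fun j =>
    (pdeg_homotopic (twist_homotopic g ψ) j).symm
  simp only [e2] at hw
  have e3 : ∑ j, pdeg g j * (h j * -h j) = -∑ j, pdeg g j * h j ^ 2 := by
    rw [← Finset.sum_neg_distrib]
    refine Finset.sum_congr rfl fun j _ => ?_
    ring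
  rw [e3] at hw
  simpa using hw

/-- `nuX` as a continuous map -/
noncomputable def nuXc : C(Fin 4 → S3, Fin 4 → S3) :=
  ⟨nuX, by
    refine continuous_pi fun j => ?_
    fin_cases j <;> simp only [nuX] <;> simp <;> fun_prop⟩

/-- `nuY` as a continuous map -/
noncomputable def nuYc : C(Fin 4 → S3, Fin 4 → S3) :=
  ⟨nuY, by
    refine continuous_pi fun j => ?_
    fin_cases j <;> simp only [nuY] <;> simp <;> fun_prop⟩

theorem nuXc_apply (p : Fin 4 → S3) : nuXc p = nuX p := rfl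
theorem nuYc_apply (p : Fin 4 → S3) : nuYc p = nuY p := rfl

theorem nuX_rAct (h : Fin 4 → ℤ) (ζ : S1) (p : Fin 4 → S3) :
    nuXc (rAct h (ζ, p)) = rAct h (ζ, nuXc p) := by
  funext j
  rw [rAct_apply]
  fin_cases j
  · rfl
  · show qi * (p 1 * cS ζ ^ h 1) = qi * p 1 * cS ζ ^ h 1
    rw [mul_assoc]
  · show qi * (p 2 * cS ζ ^ h 2) = qi * p 2 * cS ζ ^ h 2
    rw [mul_assoc]
  · rfl

theorem nuY_rAct (h : Fin 4 → ℤ) (ζ : S1) (p : Fin 4 → S3) :
    nuYc (rAct h (ζ, p)) = rAct h (ζ, nuYc p) := by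
  funext j
  rw [rAct_apply]
  fin_cases j
  · show qj⁻¹ * (p 0 * cS ζ ^ h 0) = qj⁻¹ * p 0 * cS ζ ^ h 0
    rw [mul_assoc]
  · show qi * (p 1 * cS ζ ^ h 1) = qi * p 1 * cS ζ ^ h 1
    rw [mul_assoc]
  · show qi * (p 2 * cS ζ ^ h 2) = qi * p 2 * cS ζ ^ h 2
    rw [mul_assoc]
  · rfl

theorem rAct_X1 (ζ : S1) (p : Fin 4 → S3) : rAct ![3, 1, 1, 3] (ζ, p) = actX ζ ζ p := by
  funext j
  rw [rAct_apply, ← cS_zpow]
  fin_cases j
  · show p 0 * cS (ζ ^ (3 : ℤ)) = p 0 * cS ((ζ ^ 3)⁻¹ * ζ ^ 6)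
    congr 2
    group
  · show p 1 * cS (ζ ^ (1 : ℤ)) = p 1 * cS ζ
    rw [zpow_one]
  · show p 2 * cS (ζ ^ (1 : ℤ)) = p 2 * cS ζ
    rw [zpow_one]
  · show p 3 * cS (ζ ^ (3 : ℤ)) = p 3 * cS (ζ ^ 2 * ζ)
    congr 2

theorem rAct_X2 (ζ : S1) (p : Fin 4 → S3) : rAct ![-9, 1, -1, 1] (ζ, p) = actX ζ ζ⁻¹ p := by
  funext j
  rw [rAct_apply, ← cS_zpow]
  fin_cases j
  · show p 0 * cS (ζ ^ (-9 : ℤ)) = p 0 * cS ((ζ ^ 3)⁻¹ * ζ⁻¹ ^ 6)
    congr 2
    group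
  · show p 1 * cS (ζ ^ (1 : ℤ)) = p 1 * cS ζ
    rw [zpow_one]
  · show p 2 * cS (ζ ^ (-1 : ℤ)) = p 2 * cS ζ⁻¹
    rw [zpow_neg_one]
  · show p 3 * cS (ζ ^ (1 : ℤ)) = p 3 * cS (ζ ^ 2 * ζ⁻¹)
    congr 2
    group

theorem rAct_Y1 (ζ : S1) (p : Fin 4 → S3) : rAct ![-9, 1, 1, -1] (ζ, p) = actY ζ ζ 1 p := by
  funext j
  rw [rAct_apply, ← cS_zpow]
  fin_cases j
  · show p 0 * cS (ζ ^ (-9 : ℤ)) = cS 1 * p 0 * cS ((ζ ^ 6)⁻¹ * (ζ ^ 3)⁻¹)
    rw [cS_one, one_mul]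
    congr 2
    group
  · show p 1 * cS (ζ ^ (1 : ℤ)) = p 1 * cS ζ
    rw [zpow_one]
  · show p 2 * cS (ζ ^ (1 : ℤ)) = p 2 * cS ζ
    rw [zpow_one]
  · show p 3 * cS (ζ ^ (-1 : ℤ)) = p 3 * cS (ζ * (ζ ^ 2)⁻¹)
    congr 2
    group

theorem rAct_Y2 (ζ : S1) (p : Fin 4 → S3) : rAct ![-3, 1, -1, 3] (ζ, p) = actY ζ ζ⁻¹ 1 p := by
  funext j
  rw [rAct_apply, ← cS_zpow]
  fin_cases j
  · show p 0 * cS (ζ ^ (-3 : ℤ)) = cS 1 * p 0 * cS ((ζ ^ 6)⁻¹ * (ζ⁻¹ ^ 3)⁻¹)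
    rw [cS_one, one_mul]
    congr 2
    group
  · show p 1 * cS (ζ ^ (1 : ℤ)) = p 1 * cS ζ
    rw [zpow_one]
  · show p 2 * cS (ζ ^ (-1 : ℤ)) = p 2 * cS ζ⁻¹
    rw [zpow_neg_one]
  · show p 3 * cS (ζ ^ (3 : ℤ)) = p 3 * cS (ζ * (ζ⁻¹ ^ 2)⁻¹)
    congr 2
    group

/-- **There is no equivariant map `X → S²`.** -/
theorem noX : StmtNoX := by
  intro f hf2 hfT hfν
  obtain ⟨g, hg⟩ := liftS_fin 4 f hf2
  have w1 := weight_rel f g hg ![3, 1, 1, 3] (fun ζ p => by rw [rAct_X1, hfT]) nuXc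
    (nuX_rAct _) (fun p => hfν p)
  have w2 := weight_rel f g hg ![-9, 1, -1, 1] (fun ζ p => by rw [rAct_X2, hfT]) nuXc
    (nuX_rAct _) (fun p => hfν p)
  have hz := deg_of_qi_anti (g.comp (onF {1, 2} 1)) (by
    intro s
    show g (onF {1, 2} 1 (qi * s)) * qi * (g (onF {1, 2} 1 (qi * s)))⁻¹ =
      -(g (onF {1, 2} 1 s) * qi * (g (onF {1, 2} 1 s))⁻¹)
    rw [← hg, ← hg, ← hfν]
    congr 1
    funext j
    rw [onF_apply]
    fin_cases j
    · show (if (0 : Fin 4) ∈ ({1, 2} : Finset (Fin 4)) then qi * s else (1 : Fin 4 → S3) 0) =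
        onF {1, 2} 1 s 0
      rw [onF_apply, if_neg (by decide), if_neg (by decide)]
    · show (if (1 : Fin 4) ∈ ({1, 2} : Finset (Fin 4)) then qi * s else (1 : Fin 4 → S3) 1) =
        qi * onF {1, 2} 1 s 1
      rw [onF_apply, if_pos (by decide), if_pos (by decide)]
    · show (if (2 : Fin 4) ∈ ({1, 2} : Finset (Fin 4)) then qi * s else (1 : Fin 4 → S3) 2) =
        qi * onF {1, 2} 1 s 2
      rw [onF_apply, if_pos (by decide), if_pos (by decide)]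
    · show (if (3 : Fin 4) ∈ ({1, 2} : Finset (Fin 4)) then qi * s else (1 : Fin 4 → S3) 3) =
        onF {1, 2} 1 s 3
      rw [onF_apply, if_neg (by decide), if_neg (by decide)])
  have hdeg : deg (g.comp (onF {1, 2} 1)) = pdeg g 1 + pdeg g 2 := by
    rw [deg_onF, Finset.sum_pair (by decide)]
    rfl
  rw [hdeg] at hz
  simp [Fin.sum_univ_four] at w1 w2
  obtain ⟨k, hk⟩ := hz
  omega

/-- the left circle action on the first coordinate -/
noncomputable def lAct : C(S1 × (Fin 4 → S3), Fin 4 → S3) :=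
  ⟨fun q j => cS q.1 ^ (![1, 0, 0, 0] : Fin 4 → ℤ) j * q.2 j, by
    have hc := cS_continuous
    refine continuous_pi fun j => ?_
    exact ((hc.comp continuous_fst).zpow _).mul ((continuous_apply j).comp continuous_snd)⟩

theorem lAct_apply (ζ : S1) (p : Fin 4 → S3) (j : Fin 4) :
    lAct (ζ, p) j = cS ζ ^ (![1, 0, 0, 0] : Fin 4 → ℤ) j * p j := rfl

theorem lAct_eq (ζ : S1) (p : Fin 4 → S3) : lAct (ζ, p) = actY 1 1 ζ p := by
  funext j
  rw [lAct_apply, ← cS_zpow]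
  fin_cases j
  · show cS (ζ ^ (1 : ℤ)) * p 0 = cS ζ * p 0 * cS ((1 ^ 6)⁻¹ * (1 ^ 3)⁻¹)
    simp [cS_one]
  · show cS (ζ ^ (0 : ℤ)) * p 1 = p 1 * cS 1
    simp [cS_one]
  · show cS (ζ ^ (0 : ℤ)) * p 2 = p 2 * cS 1
    simp [cS_one]
  · show cS (ζ ^ (0 : ℤ)) * p 3 = p 3 * cS (1 * (1 ^ 2)⁻¹)
    simp [cS_one]

/-- **There is no equivariant map `Y → S²`.** -/
theorem noY : StmtNoY := by
  intro f hf2 hfT hfν
  obtain ⟨g, hg⟩ := liftS_fin 4 f hf2
  have w1 := weight_rel f g hg ![-9, 1, 1, -1] (fun ζ p => by rw [rAct_Y1, hfT]) nuYc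
    (nuY_rAct _) (fun p => hfν p)
  have w2 := weight_rel f g hg ![-3, 1, -1, 3] (fun ζ p => by rw [rAct_Y2, hfT]) nuYc
    (nuY_rAct _) (fun p => hfν p)
  -- the left circle
  obtain ⟨b, ψ, hb⟩ := exists_equivariant (liftT_fin 4) lAct
    (fun p => by funext j; rw [lAct_apply, cS_one, one_zpow, one_mul])
    (fun ζ ξ p => by
      funext j
      rw [lAct_apply, lAct_apply, lAct_apply, ← mul_assoc, ← cS_zpow, ← cS_zpow, ← cS_zpow,
        ← cS_mul, mul_zpow]) g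
    (fun ζ w => by rw [← hg, ← hg, lAct_eq, hfT])
  have hw := weight_formula (twist g ψ) ![1, 0, 0, 0] ![1, 0, 0, 0] 0 b (by
    intro ζ x
    have e : (fun j => ta ((![1, 0, 0, 0] : Fin 4 → ℤ) j) ((![1, 0, 0, 0] : Fin 4 → ℤ) j) ζ (x j)) =
        lAct (ζ, x) := by
      funext j
      rw [ta_left, lAct_apply]
    rw [e, hb, zpow_zero, one_mul])
  have e2 : ∀ j, pdeg (twist g ψ) j = pdeg g j := fun j =>
    (pdeg_homotopic (twist_homotopic g ψ) j).symm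
  simp only [e2] at hw
  -- the diagonal sphere
  obtain ⟨u, hu⟩ := exists_conj qj⁻¹ (by
    rw [← mul_inv_rev, qj_sq]
    rw [inv_eq_iff_mul_eq_one, S3_mul_neg, S3_neg_mul, S3_neg_neg, one_mul])
  let φ : Fin 4 → C(S3, S3) := ![ContinuousMap.const S3 u * ContinuousMap.id S3,
    ContinuousMap.id S3, ContinuousMap.id S3, ContinuousMap.const S3 1]
  have hz := deg_of_qi_anti (g.comp (ContinuousMap.pi φ)) (by
    intro s
    show g (fun j => φ j (qi * s)) * qi * (g (fun j => φ j (qi * s)))⁻¹ =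
      -(g (fun j => φ j s) * qi * (g (fun j => φ j s))⁻¹)
    rw [← hg, ← hg, ← hfν]
    congr 1
    funext j
    fin_cases j
    · show u * (qi * s) = qj⁻¹ * (u * s)
      rw [hu]
      group
    · rfl
    · rfl
    · rfl)
  rw [deg_comp_pi] at hz
  have d0 : deg (ContinuousMap.const S3 u * ContinuousMap.id S3) = 1 := by
    rw [deg_mul, deg_const, deg_id]; norm_num
  simp [Fin.sum_univ_four, φ, d0, deg_id, deg_one] at w1 w2 hw hz
  obtain ⟨k, hk⟩ := hz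
  have h4 : b ^ 2 % 4 = 0 ∨ b ^ 2 % 4 = 1 := by
    rcases Int.even_or_odd b with ⟨c, hc⟩ | ⟨c, hc⟩
    · left
      rw [hc, show (c + c) ^ 2 = 4 * c ^ 2 by ring]
      omega
    · right
      rw [hc, show (2 * c + 1) ^ 2 = 4 * (c ^ 2 + c) + 1 by ring]
      omega
  generalize b ^ 2 = B at h4 hw
  omega

end Pool.Agent.Helper90.Lift
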